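import Mathlib

/-! Abstract rank functions on finite sets: Crapo's beta invariant, deletion-contraction and
positivity for connected rank functions. -/

set_option autoImplicit false

namespace Pool.Agent.U460.RD

variable {ι : Type} [DecidableEq ι]

/-- rank functions -/
structure Rk (r : Finset ι → ℕ) : Prop where
  emp : r ∅ = 0
  mono : ∀ S T : Finset ι, S ⊆ T → r S ≤ r T
  ins : ∀ (f : ι) (T : Finset ι), r (insert f T) ≤ r T + 1
  sub : ∀ S T : Finset ι, r (S ∪ T) + r (S ∩ T) ≤ r S + r T

/-- contraction -/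
def ct (r : Finset ι → ℕ) (f : ι) (T : Finset ι) : ℕ := r (insert f T) - r {f}

/-- beta invariant -/
def be (r : Finset ι → ℕ) (S : Finset ι) : ℤ :=
  (-1) ^ r S * ∑ T ∈ S.powerset, (-1) ^ T.card * (r T : ℤ)

/-- connected -/
def Cn (r : Finset ι → ℕ) (S : Finset ι) : Prop :=
  ∀ T ⊆ S, T.Nonempty → (S \ T).Nonempty → r S < r T + r (S \ T)

theorem Rk.ct {r : Finset ι → ℕ} (h : Rk r) (f : ι) : Rk (ct r f) := by
  have h0 : ∀ T, r {f} ≤ r (insert f T) := fun T =>
    h.mono _ _ (Finset.singleton_subset_iff.2 (Finset.mem_insert_self f T))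
  refine ⟨?_, fun S T hST => ?_, fun g T => ?_, fun S T => ?_⟩
  · simp [RD.ct]
  · have h1 := h.mono _ _ (Finset.insert_subset_insert f hST)
    have h2 := h0 S
    unfold RD.ct
    omega
  · have h1 := h.ins g (insert f T)
    rw [Finset.insert_comm] at h1
    have h2 := h0 T
    unfold RD.ct
    omega
  · have h1 := h.sub (insert f S) (insert f T)
    have e1 : insert f S ∪ insert f T = insert f (S ∪ T) := by
      ext x; simp only [Finset.mem_union, Finset.mem_insert]; tauto
    have e2 : insert f S ∩ insert f T = insert f (S ∩ T) := by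
      ext x; simp only [Finset.mem_inter, Finset.mem_insert]; tauto
    rw [e1, e2] at h1
    have h2 := h0 S
    have h3 := h0 T
    have h4 := h0 (S ∪ T)
    have h5 := h0 (S ∩ T)
    unfold RD.ct
    omega

/-- the sum over the subsets of `S` in terms of the subsets of `S - f` -/
theorem sum_split (r : Finset ι → ℕ) {S : Finset ι} {f : ι} (hf : f ∈ S) :
    ∑ T ∈ S.powerset, (-1 : ℤ) ^ T.card * (r T : ℤ) =
      ∑ T ∈ (S.erase f).powerset, (-1 : ℤ) ^ T.card * ((r T : ℤ) - (r (insert f T) : ℤ)) := by
  have h1 := Finset.sum_powerset_insert (Finset.notMem_erase f S)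
    (fun T => (-1 : ℤ) ^ T.card * (r T : ℤ))
  rw [Finset.insert_erase hf] at h1
  rw [h1, ← Finset.sum_add_distrib]
  refine Finset.sum_congr rfl fun T hT => ?_
  have h2 : f ∉ T := fun h => Finset.notMem_erase f S (Finset.mem_powerset.1 hT h)
  rw [Finset.card_insert_of_notMem h2, pow_succ]
  ring

theorem sum_sign {S : Finset ι} (h : S.Nonempty) : ∑ T ∈ S.powerset, (-1 : ℤ) ^ T.card = 0 :=
  Finset.sum_powerset_neg_one_pow_card_of_nonempty h

theorem be_loop {r : Finset ι → ℕ} {S : Finset ι} {f : ι} (hf : f ∈ S)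
    (h : ∀ T, r (insert f T) = r T) : be r S = 0 := by
  unfold be
  rw [sum_split r hf, Finset.sum_eq_zero, mul_zero]
  intro T _
  rw [h, sub_self, mul_zero]

theorem be_coloop {r : Finset ι → ℕ} {S : Finset ι} {f : ι} (hf : f ∈ S)
    (hS : (S.erase f).Nonempty) (h : ∀ T ⊆ S.erase f, r (insert f T) = r T + 1) : be r S = 0 := by
  unfold be
  rw [sum_split r hf]
  have h1 : ∑ T ∈ (S.erase f).powerset, (-1 : ℤ) ^ T.card * ((r T : ℤ) - (r (insert f T) : ℤ)) =
      - ∑ T ∈ (S.erase f).powerset, (-1 : ℤ) ^ T.card := by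
    rw [← Finset.sum_neg_distrib]
    refine Finset.sum_congr rfl fun T hT => ?_
    rw [h T (Finset.mem_powerset.1 hT)]
    push_cast
    ring
  rw [h1, sum_sign hS, neg_zero, mul_zero]

theorem be_one {r : Finset ι → ℕ} {e : ι} (h0 : r ∅ = 0) (h : r {e} = 1) : be r {e} = 1 := by
  unfold be
  have h2 : ({e} : Finset ι).powerset = {∅, {e}} := by
    ext T
    simp [Finset.subset_singleton_iff]
  have h3 : (∅ : Finset ι) ≠ {e} := (Finset.singleton_ne_empty e).symm
  rw [h2, Finset.sum_pair h3, h0, h]
  simp

/-- deletion-contraction -/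
theorem be_dc {r c : Finset ι → ℕ} {S : Finset ι} {f : ι} (hf : f ∈ S)
    (hS : (S.erase f).Nonempty) (hc : ∀ T ⊆ S.erase f, c T + 1 = r (insert f T))
    (hr : r S = r (S.erase f)) : be r S = be r (S.erase f) + be c (S.erase f) := by
  have h1 : c (S.erase f) + 1 = r S := by
    rw [hc _ subset_rfl, Finset.insert_erase hf]
  unfold be
  rw [sum_split r hf, ← hr, ← h1, pow_succ]
  have h2 : ∑ T ∈ (S.erase f).powerset, (-1 : ℤ) ^ T.card * ((r T : ℤ) - (r (insert f T) : ℤ)) =
      ∑ T ∈ (S.erase f).powerset, (-1 : ℤ) ^ T.card * (r T : ℤ) -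
      ∑ T ∈ (S.erase f).powerset, (-1 : ℤ) ^ T.card * (c T : ℤ) -
      ∑ T ∈ (S.erase f).powerset, (-1 : ℤ) ^ T.card := by
    rw [← Finset.sum_sub_distrib, ← Finset.sum_sub_distrib]
    refine Finset.sum_congr rfl fun T hT => ?_
    rw [← hc T (Finset.mem_powerset.1 hT)]
    push_cast
    ring
  rw [h2, sum_sign hS]
  ring

/-- a rank function is constant under adding a loop -/
theorem Rk.loop {r : Finset ι → ℕ} (h : Rk r) {f : ι} (hf : r {f} = 0) (T : Finset ι) :
    r (insert f T) = r T := by
  have h1 := h.sub {f} T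
  have h2 : ({f} : Finset ι) ∪ T = insert f T := rfl
  rw [h2] at h1
  have h3 := h.mono _ _ (Finset.subset_insert f T)
  omega

/-- a coloop stays a coloop on smaller sets -/
theorem Rk.coloop {r : Finset ι → ℕ} (h : Rk r) {f : ι} {U : Finset ι}
    (hf : r (insert f U) = r U + 1) (T : Finset ι) (hT : T ⊆ U) (hfU : f ∉ U) :
    r (insert f T) = r T + 1 := by
  have h1 := h.sub (insert f T) U
  have e1 : insert f T ∪ U = insert f U := by
    ext x
    simp only [Finset.mem_union, Finset.mem_insert]
    constructor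
    · rintro ((h | h) | h)
      · exact Or.inl h
      · exact Or.inr (hT h)
      · exact Or.inr h
    · rintro (h | h)
      · exact Or.inl (Or.inl h)
      · exact Or.inr h
  have e2 : insert f T ∩ U = T := by
    ext x
    simp only [Finset.mem_inter, Finset.mem_insert]
    constructor
    · rintro ⟨h | h, h'⟩
      · exact absurd (h ▸ h') hfU
      · exact h
    · intro h
      exact ⟨Or.inr h, hT h⟩
  rw [e1, e2] at h1
  have h2 := h.ins f T
  omega

theorem Rk.ct_add {r : Finset ι → ℕ} (h : Rk r) {f : ι} (hf : r {f} ≠ 0) (T : Finset ι) :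
    RD.ct r f T + 1 = r (insert f T) := by
  have h0 : r {f} ≤ r (insert f T) :=
    h.mono _ _ (Finset.singleton_subset_iff.2 (Finset.mem_insert_self f T))
  have h1 : r {f} = 1 := by
    have h2 := h.ins f ∅
    rw [h.emp] at h2
    have h3 : insert f (∅ : Finset ι) = {f} := rfl
    rw [h3] at h2
    omega
  unfold RD.ct
  omega

theorem Rk.one {r : Finset ι → ℕ} (h : Rk r) {f : ι} (hf : r {f} ≠ 0) : r {f} = 1 := by
  have h2 := h.ins f ∅
  rw [h.emp] at h2
  have h3 : insert f (∅ : Finset ι) = {f} := rfl
  rw [h3] at h2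
  omega

/-- the beta invariant is nonnegative -/
theorem be_nonneg (n : ℕ) : ∀ (r : Finset ι → ℕ), Rk r → ∀ S : Finset ι, S.card = n →
    0 ≤ be r S := by
  induction n with
  | zero =>
    intro r h S hS
    rw [Finset.card_eq_zero] at hS
    subst hS
    simp [be, h.emp]
  | succ n ih =>
    intro r h S hS
    obtain ⟨f, hf⟩ : S.Nonempty := by
      rw [← Finset.card_pos]
      omega
    have hc : (S.erase f).card = n := by
      rw [Finset.card_erase_of_mem hf]
      omega
    by_cases h0 : r {f} = 0
    · rw [be_loop hf (h.loop h0)]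
    by_cases h1 : (S.erase f).Nonempty
    · by_cases h2 : r S = r (S.erase f)
      · rw [be_dc hf h1 (fun T _ => h.ct_add h0 T) h2]
        exact add_nonneg (ih r h _ hc) (ih _ (h.ct f) _ hc)
      · have h3 := h.ins f (S.erase f)
        have h4 := h.mono _ _ (Finset.erase_subset f S)
        rw [be_coloop hf h1]
        intro T hT
        refine h.coloop ?_ T hT (Finset.notMem_erase f S)
        rw [Finset.insert_erase hf] at h3 ⊢
        omega
    · rw [Finset.not_nonempty_iff_eq_empty] at h1
      have h2 : S = {f} := by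
        rw [← Finset.insert_erase hf, h1]; rfl
      rw [h2, be_one h.emp (h.one h0)]
      exact zero_le_one

/-- Tutte: deletion or contraction is connected -/
theorem Rk.tutte {r : Finset ι → ℕ} (h : Rk r) {S : Finset ι} {f : ι} (hf : f ∈ S)
    (h0 : r {f} ≠ 0) (hr : r S = r (S.erase f)) (hS : Cn r S) :
    Cn r (S.erase f) ∨ Cn (RD.ct r f) (S.erase f) := by
  by_contra hcon
  rw [not_or] at hcon
  obtain ⟨h1, h2⟩ := hcon
  unfold Cn at h1 h2
  push Not at h1 h2
  obtain ⟨A, hA, hA1, hB1, hAB⟩ := h1
  obtain ⟨C, hC, hC1, hD1, hCD⟩ := h2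
  set B := S.erase f \ A with hB
  set D := S.erase f \ C with hD
  -- key inequality
  have key : ∀ A B C D : Finset ι, A ⊆ S.erase f → C ⊆ S.erase f → B = S.erase f \ A →
      D = S.erase f \ C → r A + r B ≤ r (S.erase f) →
      RD.ct r f C + RD.ct r f D ≤ RD.ct r f (S.erase f) → A ∩ C = ∅ ∨ B ∩ D = ∅ := by
    intro A B C D hA hC hB hD hAB hCD
    by_contra hne
    rw [not_or] at hne
    obtain ⟨n1, n2⟩ := hne
    have c1 := h.ct_add h0 C
    have c2 := h.ct_add h0 D
    have c3 := h.ct_add h0 (S.erase f)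
    rw [Finset.insert_erase hf] at c3
    have s1 := h.sub A (insert f C)
    have s2 := h.sub B (insert f D)
    have fA : f ∉ A := fun h => Finset.notMem_erase f S (hA h)
    have fB : f ∉ B := fun h => by
      rw [hB] at h
      exact Finset.notMem_erase f S (Finset.sdiff_subset h)
    have e1 : A ∩ insert f C = A ∩ C := by
      rw [Finset.inter_insert_of_notMem fA]
    have e2 : B ∩ insert f D = B ∩ D := by
      rw [Finset.inter_insert_of_notMem fB]
    have e3 : S \ (A ∩ C) = B ∪ insert f D := by
      ext x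
      simp only [hB, hD, Finset.mem_sdiff, Finset.mem_inter, Finset.mem_union, Finset.mem_insert,
        Finset.mem_erase]
      by_cases hx : x = f
      · subst hx
        simp only [fA, false_and, not_false_iff, and_true, hf, true_or, or_true]
      · simp only [hx, false_or, ne_eq, not_false_iff, true_and]
        tauto
    have e4 : S \ (B ∩ D) = A ∪ insert f C := by
      ext x
      simp only [hB, hD, Finset.mem_sdiff, Finset.mem_inter, Finset.mem_union, Finset.mem_insert,
        Finset.mem_erase]
      by_cases hx : x = f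
      · subst hx
        simp [hf]
      · have q1 : x ∈ A → x ∈ S := fun h => Finset.mem_of_mem_erase (hA h)
        have q2 : x ∈ C → x ∈ S := fun h => Finset.mem_of_mem_erase (hC h)
        simp only [hx, false_or, ne_eq, not_false_iff, true_and]
        tauto
    have g1 := hS (A ∩ C) (fun x hx => Finset.mem_of_mem_erase (hA (Finset.mem_inter.1 hx).1))
      (Finset.nonempty_iff_ne_empty.2 n1) ⟨f, by
        rw [e3]
        exact Finset.mem_union_right _ (Finset.mem_insert_self f D)⟩
    have g2 := hS (B ∩ D) (fun x hx => by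
        have := (Finset.mem_inter.1 hx).1
        rw [hB] at this
        exact Finset.mem_of_mem_erase (Finset.sdiff_subset this))
      (Finset.nonempty_iff_ne_empty.2 n2) ⟨f, by
        rw [e4]
        exact Finset.mem_union_right _ (Finset.mem_insert_self f C)⟩
    rw [e3] at g1
    rw [e4] at g2
    rw [e1] at s1
    rw [e2] at s2
    omega
  have hDD : D ⊆ S.erase f := Finset.sdiff_subset
  have hCD2 : C = S.erase f \ D := by
    rw [hD, Finset.sdiff_sdiff_eq_self hC]
  have k1 := key A B C D hA hC hB hD hAB hCD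
  have k2 := key A B D C hA hDD hB hCD2 hAB (by rw [add_comm]; exact hCD)
  -- every combination makes a part empty
  have mA : ∀ x ∈ A, x ∈ C ∨ x ∈ D := fun x hx => by
    by_cases hxC : x ∈ C
    · exact Or.inl hxC
    · exact Or.inr (Finset.mem_sdiff.2 ⟨hA hx, hxC⟩)
  have mB : ∀ x ∈ B, x ∈ C ∨ x ∈ D := fun x hx => by
    by_cases hxC : x ∈ C
    · exact Or.inl hxC
    · exact Or.inr (Finset.mem_sdiff.2 ⟨Finset.sdiff_subset hx, hxC⟩)
  have mC : ∀ x ∈ C, x ∈ A ∨ x ∈ B := fun x hx => by
    by_cases hxC : x ∈ A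
    · exact Or.inl hxC
    · exact Or.inr (Finset.mem_sdiff.2 ⟨hC hx, hxC⟩)
  have mD : ∀ x ∈ D, x ∈ A ∨ x ∈ B := fun x hx => by
    by_cases hxC : x ∈ A
    · exact Or.inl hxC
    · exact Or.inr (Finset.mem_sdiff.2 ⟨Finset.sdiff_subset hx, hxC⟩)
  have emp : ∀ P Q : Finset ι, P ∩ Q = ∅ → ∀ x, x ∈ P → x ∈ Q → False := by
    intro P Q h x hP hQ
    have : x ∈ P ∩ Q := Finset.mem_inter.2 ⟨hP, hQ⟩
    rw [h] at this
    exact Finset.notMem_empty x this
  rcases k1 with k1 | k1 <;> rcases k2 with k2 | k2
  · obtain ⟨x, hx⟩ := hA1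
    rcases mA x hx with h | h
    · exact emp _ _ k1 x hx h
    · exact emp _ _ k2 x hx h
  · obtain ⟨x, hx⟩ := hC1
    rcases mC x hx with h | h
    · exact emp _ _ k1 x h hx
    · exact emp _ _ k2 x h hx
  · obtain ⟨x, hx⟩ := hD1
    rcases mD x hx with h | h
    · exact emp _ _ k2 x h hx
    · exact emp _ _ k1 x h hx
  · obtain ⟨x, hx⟩ := hB1
    rcases mB x hx with h | h
    · exact emp _ _ k2 x hx h
    · exact emp _ _ k1 x hx h

/-- the beta invariant of a connected rank function without loops is positive -/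
theorem be_pos (n : ℕ) : ∀ (r : Finset ι → ℕ), Rk r → ∀ S : Finset ι, S.card = n → S.Nonempty →
    (∀ i ∈ S, r {i} ≠ 0) → Cn r S → 0 < be r S := by
  induction n with
  | zero =>
    intro r h S hS hne
    rw [Finset.card_eq_zero] at hS
    subst hS
    exact absurd hne Finset.not_nonempty_empty
  | succ n ih =>
    intro r h S hS hne hl hC
    obtain ⟨f, hf⟩ := hne
    have hc : (S.erase f).card = n := by
      rw [Finset.card_erase_of_mem hf]
      omega
    have h0 := hl f hf
    by_cases h1 : (S.erase f).Nonempty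
    · have hsd : S \ {f} = S.erase f := by
        ext x
        simp only [Finset.mem_sdiff, Finset.mem_singleton, Finset.mem_erase]
        tauto
      have h2 : r S = r (S.erase f) := by
        have h3 := hC {f} (Finset.singleton_subset_iff.2 hf) (Finset.singleton_nonempty f)
          (by rw [hsd]; exact h1)
        rw [hsd, h.one h0] at h3
        have h4 := h.mono _ _ (Finset.erase_subset f S)
        omega
      rw [be_dc hf h1 (fun T _ => h.ct_add h0 T) h2]
      have n1 := be_nonneg n r h _ hc
      have n2 := be_nonneg n _ (h.ct f) _ hc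
      have hl' : ∀ i ∈ S.erase f, r {i} ≠ 0 := fun i hi => hl i (Finset.mem_of_mem_erase hi)
      rcases h.tutte hf h0 h2 hC with h3 | h3
      · have := ih r h _ hc h1 hl' h3
        omega
      · by_cases h4 : ∀ i ∈ S.erase f, RD.ct r f {i} ≠ 0
        · have := ih _ (h.ct f) _ hc h1 h4 h3
          omega
        · push Not at h4
          obtain ⟨i, hi, hi0⟩ := h4
          by_cases h5 : (S.erase f \ {i}).Nonempty
          · have h6 := h3 {i} (Finset.singleton_subset_iff.2 hi) (Finset.singleton_nonempty i) h5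
            have h7 := (h.ct f).mono _ _ (Finset.sdiff_subset : S.erase f \ {i} ⊆ S.erase f)
            omega
          · have h6 : S.erase f = {i} := by
              rw [Finset.not_nonempty_iff_eq_empty, Finset.sdiff_eq_empty_iff_subset] at h5
              exact Finset.Subset.antisymm h5 (Finset.singleton_subset_iff.2 hi)
            have h7 : be r (S.erase f) = 1 := by
              rw [h6]
              exact be_one h.emp (h.one (hl' i hi))
            omega
    · rw [Finset.not_nonempty_iff_eq_empty] at h1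
      have h2 : S = {f} := by
        rw [← Finset.insert_erase hf, h1]; rfl
      rw [h2, be_one h.emp (h.one h0)]
      exact zero_lt_one

end Pool.Agent.U460.RD
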