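import Pool.Agent.U220.RD.Stm
import Pool.Agent.U460.RD.Abs

/-! Package COMB of project RD. -/

set_option autoImplicit false

namespace Pool.Agent.U460.RD

open Pool.Agent.U220.RD Module

variable {ι W : Type} [DecidableEq ι] [AddCommGroup W] [Module ℂ W]

instance fdim (a : ι → W) (T : Finset ι) :
    FiniteDimensional ℂ (Submodule.span ℂ (a '' (T : Set ι))) :=
  FiniteDimensional.span_of_finite ℂ (T.finite_toSet.image a)

theorem span_insert' (a : ι → W) (f : ι) (T : Finset ι) :
    Submodule.span ℂ (a '' ((insert f T : Finset ι) : Set ι)) =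
      Submodule.span ℂ {a f} ⊔ Submodule.span ℂ (a '' (T : Set ι)) := by
  rw [Finset.coe_insert, Set.image_insert_eq, Submodule.span_insert]

theorem rk_mono (a : ι → W) {S T : Finset ι} (h : S ⊆ T) : rk a S ≤ rk a T :=
  Submodule.finrank_mono (Submodule.span_mono (Set.image_mono (Finset.coe_subset.2 h)))

theorem rk_isRk (a : ι → W) : Rk (rk a) := by
  refine ⟨?_, fun S T h => rk_mono a h, fun f T => ?_, fun S T => ?_⟩
  · simp [rk]
  · unfold rk
    rw [span_insert']
    have h1 := Submodule.finrank_add_le_finrank_add_finrank (Submodule.span ℂ {a f})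
      (Submodule.span ℂ (a '' (T : Set ι)))
    have h2 : finrank ℂ (Submodule.span ℂ {a f}) ≤ 1 := by
      by_cases h : a f = 0
      · rw [h, Submodule.span_zero_singleton, finrank_bot]
        exact zero_le_one
      · exact (finrank_span_singleton h).le
    omega
  · unfold rk
    have h1 := Submodule.finrank_sup_add_finrank_inf_eq (Submodule.span ℂ (a '' (S : Set ι)))
      (Submodule.span ℂ (a '' (T : Set ι)))
    have h2 : Submodule.span ℂ (a '' ((S ∪ T : Finset ι) : Set ι)) =
        Submodule.span ℂ (a '' (S : Set ι)) ⊔ Submodule.span ℂ (a '' (T : Set ι)) := by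
      rw [Finset.coe_union, Set.image_union, Submodule.span_union]
    have h3 : Submodule.span ℂ (a '' ((S ∩ T : Finset ι) : Set ι)) ≤
        Submodule.span ℂ (a '' (S : Set ι)) ⊓ Submodule.span ℂ (a '' (T : Set ι)) := by
      refine le_inf ?_ ?_
      · exact Submodule.span_mono (Set.image_mono (Finset.coe_subset.2 Finset.inter_subset_left))
      · exact Submodule.span_mono (Set.image_mono (Finset.coe_subset.2 Finset.inter_subset_right))
    have h4 := Submodule.finrank_mono h3
    rw [h2]
    omega

theorem rk_single {a : ι → W} {f : ι} (h : a f ≠ 0) : rk a {f} = 1 := by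
  unfold rk
  rw [Finset.coe_singleton, Set.image_singleton]
  exact finrank_span_singleton h

theorem rk_con {a : ι → W} {f : ι} (h : a f ≠ 0) (T : Finset ι) :
    rk (con a f) T + 1 = rk a (insert f T) := by
  unfold rk
  have h1 : Submodule.span ℂ (con a f '' (T : Set ι)) =
      (Submodule.span ℂ (a '' ((insert f T : Finset ι) : Set ι))).map
        (Submodule.span ℂ {a f}).mkQ := by
    rw [span_insert', Submodule.map_sup, Submodule.map_span, Submodule.map_span,
      Set.image_singleton]
    have h2 : (Submodule.span ℂ {a f}).mkQ (a f) = 0 := by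
      rw [Submodule.mkQ_apply, Submodule.Quotient.mk_eq_zero]
      exact Submodule.mem_span_singleton_self _
    rw [h2, Submodule.span_zero_singleton, bot_sup_eq, ← Set.image_comp]
    rfl
  set U := Submodule.span ℂ (a '' ((insert f T : Finset ι) : Set ι)) with hU
  have hle : Submodule.span ℂ {a f} ≤ U := by
    rw [hU, span_insert']
    exact le_sup_left
  have h3 := LinearMap.finrank_range_add_finrank_ker
    ((Submodule.span ℂ {a f}).mkQ.domRestrict U)
  rw [LinearMap.range_domRestrict, ← h1] at h3
  have h4 : finrank ℂ (LinearMap.ker ((Submodule.span ℂ {a f}).mkQ.domRestrict U)) = 1 := by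
    have h5 : LinearMap.ker ((Submodule.span ℂ {a f}).mkQ.domRestrict U) =
        (Submodule.span ℂ {a f}).comap U.subtype := by
      rw [LinearMap.ker_domRestrict, Submodule.ker_mkQ]
    rw [h5, (Submodule.comapSubtypeEquivOfLe hle).finrank_eq]
    exact finrank_span_singleton h
  omega

theorem beta_eq (a : ι → W) (S : Finset ι) : beta a S = be (rk a) S := rfl

theorem t_BDC : Pool.Agent.U220.RD.S_BDC := by
  intro ι W _ _ _ a S f hf hS h0 hsp
  rw [beta_eq, beta_eq, beta_eq]
  refine be_dc hf hS (fun T _ => rk_con h0 T) ?_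
  have h1 : Submodule.span ℂ (a '' (S : Set ι)) =
      Submodule.span ℂ (a '' ((S.erase f : Finset ι) : Set ι)) := by
    conv_lhs => rw [← Finset.insert_erase hf]
    rw [span_insert']
    exact sup_eq_right.2 (by rwa [Submodule.span_singleton_le_iff_mem])
  unfold rk
  rw [h1]

theorem t_BLOOP : Pool.Agent.U220.RD.S_BLOOP := by
  intro ι W _ _ _ a S f hf h0
  rw [beta_eq]
  refine be_loop hf fun T => (rk_isRk a).loop ?_ T
  unfold rk
  rw [Finset.coe_singleton, Set.image_singleton, h0, Submodule.span_zero_singleton]
  exact finrank_bot ℂ W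

theorem t_BCOLOOP : Pool.Agent.U220.RD.S_BCOLOOP := by
  intro ι W _ _ _ a S f hf hS hsp
  rw [beta_eq]
  have hR := rk_isRk a
  refine be_coloop hf hS fun T hT => hR.coloop ?_ T hT (Finset.notMem_erase f S)
  have h1 := hR.ins f (S.erase f)
  have h2 : rk a (S.erase f) < rk a (insert f (S.erase f)) := by
    unfold rk
    refine Submodule.finrank_lt_finrank_of_lt ?_
    rw [span_insert']
    refine lt_of_le_of_ne le_sup_right fun h => hsp ?_
    rw [h]
    exact Submodule.mem_sup_left (Submodule.mem_span_singleton_self _)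
  omega

theorem t_BONE : Pool.Agent.U220.RD.S_BONE := by
  intro ι W _ _ _ a e h0
  exact be_one (rk_isRk a).emp (rk_single h0)

theorem t_BPOS : Pool.Agent.U220.RD.S_BPOS := by
  intro ι W _ _ _ a S hS h0 hC
  exact be_pos S.card _ (rk_isRk a) S rfl hS (fun i hi => by rw [rk_single (h0 i hi)]; exact one_ne_zero)
    hC

end Pool.Agent.U460.RD
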